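import Pool.Agent.Lib.MP_efa98f_al.H92.Part3

set_option autoImplicit false

namespace Pool.Agent.MP_efa98f_al.H92

theorem letters3 (l w1 w2 : ℤ) (hl : l % 2 = 1) (hw : IsCoprime w1 w2) :
    ∃ m1 m2 al b : ℤ, al = w1 + m1 * w2 ∧ b = w2 + m2 * al ∧ b.natAbs.Prime ∧ l * b < 0 ∧
      (4 : ℤ) ∣ l * b + 3 ∧ IsCoprime b l ∧ IsCoprime al b := by
  have hl0 : l ≠ 0 := by rintro rfl; norm_num at hl
  -- first letter
  obtain ⟨m1, hm1⟩ : ∃ m1 : ℤ, (w1 + m1 * w2) % 2 = 1 := by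
    rcases Int.emod_two_eq_zero_or_one w1 with h | h
    · refine ⟨1, ?_⟩
      rcases Int.emod_two_eq_zero_or_one w2 with h' | h'
      · exfalso
        obtain ⟨u, v, huv⟩ := hw
        obtain ⟨x, hx⟩ := Int.dvd_of_emod_eq_zero h
        obtain ⟨y, hy⟩ := Int.dvd_of_emod_eq_zero h'
        have : (2 : ℤ) * (u * x + v * y) = 1 := by rw [← huv, hx, hy]; ring
        omega
      · omega
    · exact ⟨0, by simpa using h⟩
  set al : ℤ := w1 + m1 * w2 with hal
  have hal0 : al ≠ 0 := by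
    intro h
    rw [h] at hm1
    norm_num at hm1
  have hcop : IsCoprime al w2 := by
    rw [hal]; exact IsCoprime.add_mul_right_left hw _
  -- the sign
  obtain ⟨s, hs, hsl⟩ : ∃ s : ℤ, (s = 1 ∨ s = -1) ∧ 0 < s * l := by
    rcases lt_or_gt_of_ne hl0 with h | h
    · exact ⟨-1, Or.inr rfl, by linarith⟩
    · exact ⟨1, Or.inl rfl, by linarith⟩
  have hss : s * s = 1 := by rcases hs with rfl | rfl <;> norm_num
  have hA : al.natAbs ≠ 0 := Int.natAbs_ne_zero.2 hal0
  have hA4 : IsCoprime ((al.natAbs : ℕ) : ℤ) ((4 : ℕ) : ℤ) := by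
    rw [Nat.isCoprime_iff_coprime]
    have hodd : Odd al.natAbs := by
      rw [Int.natAbs_odd, Int.odd_iff]; exact hm1
    exact Nat.Coprime.pow_right 2 (Nat.Coprime.symm ((Nat.coprime_two_left).2 hodd))
  have ha : IsCoprime (-(s * w2)) ((al.natAbs : ℕ) : ℤ) := by
    have h1 : IsCoprime s al := ⟨s, 0, by rw [hss]; ring⟩
    have h2 : IsCoprime (-(s * w2)) al := (IsCoprime.mul_left h1 hcop.symm).neg_left
    rcases Int.natAbs_eq al with h | h
    · rw [← h]; exact h2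
    · have h3 : ((al.natAbs : ℕ) : ℤ) = -al := by omega
      rw [h3]; exact h2.neg_right
  have hb : IsCoprime (-(s * l)) ((4 : ℕ) : ℤ) := by
    have h2 : IsCoprime l 2 := ⟨1, -(l / 2), by omega⟩
    have h4 : IsCoprime l (2 ^ 2) := h2.pow_right
    have h1 : IsCoprime s ((4 : ℕ) : ℤ) := ⟨s, 0, by rw [hss]; ring⟩
    have h5 : IsCoprime l ((4 : ℕ) : ℤ) := by norm_num at h4 ⊢; exact h4
    exact (IsCoprime.mul_left h1 h5).neg_left
  obtain ⟨π, hπn, hπ, hπa, hπ4⟩ := primeCRT l.natAbs al.natAbs 4 hA (by norm_num) hA4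
    (-(s * w2)) (-(s * l)) ha hb
  -- `b = - s π`
  have hb' : al ∣ -(s * π) - w2 := by
    have h1 : al ∣ (π : ℤ) - (-(s * w2)) := by
      exact (Int.natAbs_dvd).1 hπa
    have : -(s * π) - w2 = -s * ((π : ℤ) - (-(s * w2))) + (s * s - 1) * w2 := by ring
    rw [this, hss]
    simpa using Dvd.dvd.mul_left h1 (-s)
  obtain ⟨m2, hm2⟩ := hb'
  refine ⟨m1, m2, al, -(s * π), rfl, by linarith, ?_, ?_, ?_, ?_, ?_⟩
  · have : (-(s * (π : ℤ))).natAbs = π := by
      rcases hs with rfl | rfl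
      · simp
      · simp
    rw [this]; exact hπ
  · have : l * -(s * (π : ℤ)) = -((s * l) * π) := by ring
    rw [this]
    have hπpos : (0 : ℤ) < π := by exact_mod_cast hπ.pos
    have := mul_pos hsl hπpos
    linarith
  · obtain ⟨w, hw'⟩ := hπ4
    have hπe : (π : ℤ) = 4 * w - s * l := by push_cast at hw'; linarith
    have hll : (4 : ℤ) ∣ l * l + 3 := by
      obtain ⟨j, hj⟩ : ∃ j, l = 2 * j + 1 := ⟨l / 2, by omega⟩
      exact ⟨j * j + j + 1, by rw [hj]; ring⟩
    have : l * -(s * (π : ℤ)) + 3 = 4 * (-(s * l * w)) + (l * l + 3) + (s * s - 1) * (l * l) := by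
      rw [hπe]; ring
    rw [this, hss]
    have h0 : (1 - 1 : ℤ) * (l * l) = 0 := by ring
    rw [h0, add_zero]
    exact dvd_add (Dvd.intro _ rfl) hll
  · have h1 : IsCoprime (π : ℤ) l := by
      rw [Int.isCoprime_iff_gcd_eq_one]
      by_contra hcon
      have hg' : Int.gcd (π : ℤ) l ∣ π := by
        have : (Int.gcd (π : ℤ) l : ℤ) ∣ (π : ℤ) := Int.gcd_dvd_left _ _
        exact_mod_cast this
      rcases (Nat.dvd_prime hπ).1 hg' with h | h
      · exact hcon h
      · have h2 : (π : ℤ) ∣ l := by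
          have h3 : (Int.gcd (π : ℤ) l : ℤ) ∣ l := Int.gcd_dvd_right _ _
          rwa [h] at h3
        have := Nat.le_of_dvd (Int.natAbs_pos.2 hl0) (Int.natAbs_dvd_natAbs.2 h2)
        simp only [Int.natAbs_natCast] at this
        omega
    have h2 : IsCoprime s l := ⟨s, 0, by rw [hss]; ring⟩
    exact (IsCoprime.mul_left h2 h1).neg_left
  · have : -(s * (π : ℤ)) = w2 + al * m2 := by linarith
    rw [this]
    exact IsCoprime.add_mul_left_right hcop _

end Pool.Agent.MP_efa98f_al.H92
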