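import Pool.Agent.Lib.MP_efa98f_al.H92.Part3

set_option autoImplicit false

open scoped NumberTheorySymbols

namespace Pool.Agent.MP_efa98f_al.H92

/-- A prime in a residue class modulo `N = 3 mod 4` modulo which `N` is a square. -/
lemma primeSquare (N : ℕ) (hN : N % 4 = 3) (x0 : ℤ) (hx : IsCoprime x0 (N : ℤ)) (M : ℕ) :
    ∃ p : ℕ, M < p ∧ N < p ∧ p.Prime ∧ (N : ℤ) ∣ (p : ℤ) - x0 ∧ IsSquare ((N : ℕ) : ZMod p) := by
  have hNodd : Odd N := Nat.odd_iff.2 (by omega)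
  have hN4 : IsCoprime (N : ℤ) ((4 : ℕ) : ℤ) := by
    rw [Nat.isCoprime_iff_coprime]
    have h2 : Nat.Coprime N 2 := Nat.Coprime.symm ((Nat.coprime_two_left).2 hNodd)
    exact Nat.Coprime.pow_right 2 h2
  have hgcd : x0.gcd N = 1 := Int.isCoprime_iff_gcd_eq_one.1 hx
  obtain ⟨r, hr1, hr⟩ : ∃ r : ℤ, IsCoprime r ((4 : ℕ) : ℤ) ∧
      ((r = 1 ∧ J(x0 | N) = 1) ∨ (r = 3 ∧ J(x0 | N) = -1)) := by
    rcases jacobiSym.eq_one_or_neg_one hgcd with h | h
    · exact ⟨1, isCoprime_one_left, Or.inl ⟨rfl, h⟩⟩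
    · exact ⟨3, by norm_num, Or.inr ⟨rfl, h⟩⟩
  obtain ⟨p, hpn, hp, hpx, hp4⟩ := primeCRT (M + N + 4) N 4 (by omega) (by norm_num) hN4 x0 r hx hr1
  refine ⟨p, by omega, by omega, hp, hpx, ?_⟩
  have hpodd : Odd p := hp.odd_of_ne_two (by omega)
  have : Fact p.Prime := ⟨hp⟩
  have hN0 : ((N : ℕ) : ZMod p) ≠ 0 := by
    rw [Ne, ZMod.natCast_eq_zero_iff]
    intro h
    have := Nat.le_of_dvd (by omega) h
    omega
  rw [← legendreSym.eq_one_iff' p hN0, jacobiSym.legendreSym.to_jacobiSym]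
  have hJ : J((p : ℤ) | N) = J(x0 | N) := by
    apply jacobiSym.mod_left'
    exact Int.emod_eq_emod_iff_emod_sub_eq_zero.2 (Int.emod_eq_zero_of_dvd hpx)
  rcases hr with ⟨rfl, h⟩ | ⟨rfl, h⟩
  · have hp4' : p % 4 = 1 := by omega
    rw [jacobiSym.quadratic_reciprocity_one_mod_four' hNodd hp4', hJ, h]
  · have hp4' : p % 4 = 3 := by omega
    rw [jacobiSym.quadratic_reciprocity_three_mod_four hN hp4', hJ, h]
    norm_num

/-- Integer solutions from an exponent. -/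
theorem part4 (l b al de d : ℤ) (hl : l % 2 = 1) (hb : b.natAbs.Prime) (hneg : l * b < 0)
    (h4 : (4 : ℤ) ∣ l * b + 3) (hbl : IsCoprime b l) (hal : IsCoprime al b)
    (hde : IsCoprime de l) (hd : b ∣ al * d - l) :
    ∃ a c k f g tau : ℤ, b ∣ l * a - al ∧ l ∣ b * a - de ∧ a * (d + k * b) - b * c = 1 ∧ 0 < c ∧
      f ^ 2 + tau * f * g + l * c * g ^ 2 = 1 ∧ c ∣ f - a ∧ l ∣ f - a := by
  have hl0 : l ≠ 0 := by rintro rfl; norm_num at hl
  have hb0 : b ≠ 0 := by rintro rfl; simp at hneg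
  -- the modulus `N = - l b`
  obtain ⟨N, hN⟩ : ∃ N : ℕ, (N : ℤ) = -(l * b) := ⟨(-(l * b)).toNat, Int.toNat_of_nonneg (by omega)⟩
  have hN3 : N % 4 = 3 := by omega
  have hlN : l ∣ (N : ℤ) := ⟨-b, by rw [hN]; ring⟩
  have hbN : b ∣ (N : ℤ) := ⟨-l, by rw [hN]; ring⟩
  have hNpos : 0 < N := by omega
  -- the residue
  obtain ⟨u, v, huv⟩ := hbl
  have hvb : IsCoprime v b := ⟨l, u, by linarith⟩
  have hul : IsCoprime u l := ⟨b, v, by linarith⟩
  set x0 : ℤ := al * v * (v * l) + de * u * (u * b) with hx0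
  have hx0b : x0 = al * v + b * (u * (de * u - al * v)) := by
    rw [hx0, show v * l = 1 - u * b from by linarith]; ring
  have hx0l : x0 = de * u + l * (v * (al * v - de * u)) := by
    rw [hx0, show u * b = 1 - v * l from by linarith]; ring
  have hxb : IsCoprime x0 b := by
    rw [hx0b]; exact IsCoprime.add_mul_left_left (IsCoprime.mul_left hal hvb) _
  have hxl : IsCoprime x0 l := by
    rw [hx0l]; exact IsCoprime.add_mul_left_left (IsCoprime.mul_left hde hul) _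
  have hxN : IsCoprime x0 (N : ℤ) := by
    rw [hN]; exact (IsCoprime.mul_right hxl hxb).neg_right
  obtain ⟨p, hpM, hpN, hp, hpx, hsq⟩ := primeSquare N hN3 x0 hxN (l.natAbs + b.natAbs + 4)
  have hpF : Fact p.Prime := ⟨hp⟩
  have hpb : b ∣ (p : ℤ) - x0 := hbN.trans hpx
  have hpl : l ∣ (p : ℤ) - x0 := hlN.trans hpx
  have h1 : b ∣ l * p - al := by
    have : l * p - al = l * ((p : ℤ) - x0) + b * (l * (u * (de * u - al * v)) - al * u) := by
      have e : l * x0 = l * al * v + b * (l * (u * (de * u - al * v))) := by rw [hx0b]; ring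
      have e2 : l * al * v = al - al * u * b := by
        have : l * al * v = al * (v * l) := by ring
        rw [this, show v * l = 1 - u * b from by linarith]; ring
      linear_combination e + e2
    rw [this]
    exact dvd_add (Dvd.dvd.mul_left hpb _) (Dvd.intro _ rfl)
  have h2 : l ∣ b * p - de := by
    have : b * p - de = b * ((p : ℤ) - x0) + l * (b * (v * (al * v - de * u)) - de * v) := by
      have e : b * x0 = b * de * u + l * (b * (v * (al * v - de * u))) := by rw [hx0l]; ring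
      have e2 : b * de * u = de - de * v * l := by
        have : b * de * u = de * (u * b) := by ring
        rw [this, show u * b = 1 - v * l from by linarith]; ring
      linear_combination e + e2
    rw [this]
    exact dvd_add (Dvd.dvd.mul_left hpl _) (Dvd.intro _ rfl)
  have hp_not_l : ¬ (p : ℤ) ∣ l := by
    intro h
    have := Nat.le_of_dvd (Int.natAbs_pos.2 hl0) (Int.natAbs_dvd_natAbs.2 h)
    simp only [Int.natAbs_natCast] at this
    omega
  have hp_not_b : ¬ (p : ℤ) ∣ b := by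
    intro h
    have := Nat.le_of_dvd (Int.natAbs_pos.2 hb0) (Int.natAbs_dvd_natAbs.2 h)
    simp only [Int.natAbs_natCast] at this
    omega
  -- c0
  have h3 : b ∣ (p : ℤ) * d - 1 := by
    have : b ∣ l * ((p : ℤ) * d - 1) := by
      have e : l * ((p : ℤ) * d - 1) = (l * p - al) * d + (al * d - l) := by ring
      rw [e]
      exact dvd_add (Dvd.dvd.mul_right h1 _) hd
    exact IsCoprime.dvd_of_dvd_mul_left (⟨u, v, huv⟩ : IsCoprime b l) this
  obtain ⟨c0, hc0⟩ := h3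
  have hpz : ((p : ℕ) : ZMod p) = 0 := ZMod.natCast_self p
  have hlz : (l : ZMod p) ≠ 0 := by
    rw [Ne, ZMod.intCast_zmod_eq_zero_iff_dvd]; exact hp_not_l
  have hbz : (b : ZMod p) ≠ 0 := by
    rw [Ne, ZMod.intCast_zmod_eq_zero_iff_dvd]; exact hp_not_b
  have hbc : (b : ZMod p) * (c0 : ZMod p) = -1 := by
    have := congrArg (fun x : ℤ => (x : ZMod p)) hc0
    push_cast at this
    rw [hpz] at this
    linear_combination -this
  have hc0z : (c0 : ZMod p) ≠ 0 := by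
    intro h
    rw [h, mul_zero] at hbc
    exact absurd hbc (by
      intro h'
      have : (1 : ZMod p) = 0 := by linear_combination h'
      exact one_ne_zero this)
  -- z with l c0 z ^ 2 = 1, z ≠ 1
  obtain ⟨z, hz, hz1⟩ : ∃ z : ZMod p, z ^ 2 * ((l : ZMod p) * (c0 : ZMod p)) = 1 ∧ z ≠ 1 := by
    obtain ⟨s, hs⟩ := hsq
    have hNz : ((N : ℕ) : ZMod p) = -((l : ZMod p) * (b : ZMod p)) := by
      have := congrArg (fun x : ℤ => (x : ZMod p)) hN
      push_cast at this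
      exact this
    have hs0 : s ≠ 0 := by
      rintro rfl
      rw [hNz, mul_zero, neg_eq_zero, mul_eq_zero] at hs
      rcases hs with h | h
      · exact hlz h
      · exact hbz h
    -- `l c0 = (s / b) ^ 2`
    have hlc : (l : ZMod p) * (c0 : ZMod p) * (b : ZMod p) ^ 2 = s * s := by
      rw [← hs, hNz]
      linear_combination (l : ZMod p) * (b : ZMod p) * hbc
    have key : (s⁻¹ * b) ^ 2 * ((l : ZMod p) * (c0 : ZMod p)) = 1 := by
      have : (s⁻¹ * b) ^ 2 * ((l : ZMod p) * (c0 : ZMod p))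
          = (s⁻¹) ^ 2 * ((l : ZMod p) * (c0 : ZMod p) * (b : ZMod p) ^ 2) := by ring
      rw [this, hlc]
      field_simp
    by_cases h : s⁻¹ * b = 1
    · refine ⟨-1, ?_, ?_⟩
      · rw [h] at key
        linear_combination key
      · intro h2
        have h3 : (2 : ZMod p) = 0 := by linear_combination -h2
        have h4 : ((2 : ℕ) : ZMod p) = 0 := by exact_mod_cast h3
        rw [ZMod.natCast_eq_zero_iff] at h4
        have := Nat.le_of_dvd (by norm_num) h4
        omega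
    · exact ⟨s⁻¹ * b, key, h⟩
  have hz0 : z ≠ 0 := by
    rintro rfl
    simp at hz
  have hcopz : IsCoprime ((z.val : ℕ) : ℤ) (p : ℤ) := by
    rw [Nat.isCoprime_iff_coprime, Nat.coprime_comm, hp.coprime_iff_not_dvd]
    intro h
    apply hz0
    rw [← ZMod.natCast_zmod_val z]
    exact (ZMod.natCast_eq_zero_iff _ _).2 h
  -- φ
  set ph : ℕ := Nat.totient l.natAbs with hph
  have hlabs : 0 < l.natAbs := Int.natAbs_pos.2 hl0
  have hphpos : 0 < ph := Nat.totient_pos.2 hlabs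
  have hphle : ph ≤ l.natAbs := Nat.totient_le _
  have hp4 : IsCoprime (p : ℤ) ((4 * ph : ℕ) : ℤ) := by
    rw [Nat.isCoprime_iff_coprime, hp.coprime_iff_not_dvd]
    intro h
    rcases (Nat.Prime.dvd_mul hp).1 h with h | h
    · have := Nat.le_of_dvd (by norm_num) h
      omega
    · have := Nat.le_of_dvd hphpos h
      omega
  -- q
  obtain ⟨q, hqn, hq, hqz, hq3⟩ := primeCRT (p + 3) p (4 * ph) hp.ne_zero (by positivity) hp4
    (z.val : ℕ) (-1) hcopz (by exact ⟨-1, 0, by ring⟩)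
  have hqF : Fact q.Prime := ⟨hq⟩
  have hqz' : (q : ZMod p) = z := by
    have h1 : (((q : ℤ) - (z.val : ℕ) : ℤ) : ZMod p) = 0 :=
      (ZMod.intCast_zmod_eq_zero_iff_dvd _ _).2 hqz
    push_cast at h1
    rw [ZMod.natCast_zmod_val] at h1
    exact sub_eq_zero.1 h1
  obtain ⟨w0, hw0⟩ := hq3
  have hqeq : (q : ℤ) = 4 * (ph * w0) - 1 := by push_cast at hw0; linarith
  obtain ⟨m, hm⟩ : ∃ m, q = 2 * m + 1 := ⟨(q - 1) / 2, by omega⟩
  have hmeq : (m : ℤ) = 2 * (ph * w0) - 1 := by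
    have : (q : ℤ) = 2 * m + 1 := by exact_mod_cast hm
    linarith
  have hmpos : 0 < m := by omega
  have hmodd : m % 2 = 1 := by omega
  have hmph : IsCoprime (m : ℤ) (ph : ℤ) := ⟨-1, 2 * w0, by rw [hmeq]; ring⟩
  have hmp : Nat.Coprime p m := by
    rw [hp.coprime_iff_not_dvd]
    intro h
    apply hz1
    rw [← hqz', hm]
    have : ((m : ℕ) : ZMod p) = 0 := (ZMod.natCast_eq_zero_iff _ _).2 h
    push_cast
    rw [this]; ring
  have hpq : Nat.Coprime p q := (Nat.coprime_primes hp hq).2 (by omega)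
  -- P
  have hpl_cop : IsCoprime (p : ℤ) l := by
    rw [Int.isCoprime_iff_gcd_eq_one]
    by_contra hcon
    have hg : (Int.gcd (p : ℤ) l : ℤ) ∣ (p : ℤ) := Int.gcd_dvd_left _ _
    have hg' : Int.gcd (p : ℤ) l ∣ p := by exact_mod_cast hg
    rcases (Nat.dvd_prime hp).1 hg' with h | h
    · exact hcon h
    · exact hp_not_l (by rw [← h]; exact Int.gcd_dvd_right _ _)
  have hpm_q : IsCoprime ((p ^ m : ℕ) : ℤ) (l * (q : ℤ) ^ 2) := by
    rw [Nat.cast_pow]
    refine IsCoprime.pow_left (IsCoprime.mul_right hpl_cop (IsCoprime.pow_right ?_))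
    rw [Nat.isCoprime_iff_coprime]; exact hpq
  obtain ⟨u', v', huv'⟩ := hpm_q
  have hvcop : IsCoprime v' ((p ^ m : ℕ) : ℤ) := ⟨l * (q : ℤ) ^ 2, u', by linarith⟩
  have hpm_m : IsCoprime ((p ^ m : ℕ) : ℤ) (m : ℤ) := by
    rw [Nat.isCoprime_iff_coprime]
    exact Nat.Coprime.pow_left _ hmp
  obtain ⟨P, hPn, hP, hPv, hPm⟩ := primeCRT p (p ^ m) m (pow_ne_zero _ hp.ne_zero) (by omega)
    hpm_m v' (-1) hvcop (by exact ⟨-1, 0, by ring⟩)
  have hPF : Fact P.Prime := ⟨hP⟩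
  have hd1 : ((p ^ m : ℕ) : ℤ) ∣ 1 - l * (P : ℤ) * q ^ 2 := by
    have : 1 - l * (P : ℤ) * q ^ 2 = ((p ^ m : ℕ) : ℤ) * u' - ((P : ℤ) - v') * (l * q ^ 2) := by
      linear_combination -huv'
    rw [this]
    exact dvd_sub (Dvd.intro _ rfl) (Dvd.dvd.mul_right hPv _)
  have hdp : (p : ℤ) ∣ (P : ℤ) - c0 := by
    rw [← ZMod.intCast_zmod_eq_zero_iff_dvd]
    have h1 : (p : ℤ) ∣ 1 - l * (P : ℤ) * q ^ 2 :=
      dvd_trans (by exact_mod_cast dvd_pow_self p (by omega : m ≠ 0)) hd1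
    have h2 : ((1 - l * (P : ℤ) * q ^ 2 : ℤ) : ZMod p) = 0 :=
      (ZMod.intCast_zmod_eq_zero_iff_dvd _ _).2 h1
    push_cast at h2 ⊢
    rw [hqz'] at h2
    have h3 : (z ^ 2 * (l : ZMod p)) * ((P : ZMod p) - (c0 : ZMod p)) = 0 := by
      linear_combination -h2 - hz
    rcases mul_eq_zero.1 h3 with h4 | h4
    · rcases mul_eq_zero.1 h4 with h5 | h5
      · exact absurd ((pow_eq_zero_iff (two_ne_zero)).1 h5) hz0
      · exact absurd h5 hlz
    · exact h4
  obtain ⟨k, hk⟩ := hdp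
  have hPk : c0 + k * p = (P : ℤ) := by linarith
  have hd2 : (q : ℤ) ∣ 1 - ((p : ℤ) ^ m) ^ 2 := by
    have hpz : ((p : ℤ) : ZMod q) ≠ 0 := by
      rw [Ne, ZMod.intCast_zmod_eq_zero_iff_dvd]
      intro h
      have h' : q ∣ p := by exact_mod_cast h
      have := Nat.le_of_dvd hp.pos h'
      omega
    rw [← ZMod.intCast_zmod_eq_zero_iff_dvd]
    have h1 := ZMod.pow_card_sub_one_eq_one hpz
    have h2 : q - 1 = m * 2 := by omega
    rw [h2, pow_mul] at h1
    push_cast at h1 ⊢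
    rw [h1]; ring
  have hdd : (((p ^ m : ℕ) : ℤ) * q) ∣ 1 - ((p : ℤ) ^ m) ^ 2 - l * P * q ^ 2 := by
    apply IsCoprime.mul_dvd
    · rw [Nat.isCoprime_iff_coprime]
      exact Nat.Coprime.pow_left _ hpq
    · have : 1 - ((p : ℤ) ^ m) ^ 2 - l * P * q ^ 2
          = (1 - l * P * q ^ 2) - ((p ^ m : ℕ) : ℤ) * (p : ℤ) ^ m := by
        push_cast; ring
      rw [this]
      exact dvd_sub hd1 (Dvd.intro _ rfl)
    · have : 1 - ((p : ℤ) ^ m) ^ 2 - l * P * q ^ 2 = (1 - ((p : ℤ) ^ m) ^ 2) - q * (l * P * q) := by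
        ring
      rw [this]
      exact dvd_sub hd2 (Dvd.intro _ rfl)
  obtain ⟨t, ht⟩ := hdd
  have hnorm : ((p : ℤ) ^ m) ^ 2 + t * (p : ℤ) ^ m * q + (l * P) * (q : ℤ) ^ 2 = 1 := by
    push_cast at ht
    linear_combination -ht
  -- exponent
  have hP1 : 1 ≤ P := hP.one_lt.le
  have hcop : Nat.Coprime m ((P - 1) * ph) := by
    rw [← Nat.isCoprime_iff_coprime]
    obtain ⟨w, hw⟩ := hPm
    have h2 : IsCoprime (m : ℤ) 2 := ⟨1, -((m / 2 : ℕ) : ℤ), by
      have : (m : ℤ) = 2 * ((m / 2 : ℕ) : ℤ) + 1 := by exact_mod_cast (by omega : m = 2 * (m / 2) + 1)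
      linarith⟩
    have h3 : ((P - 1 : ℕ) : ℤ) = -2 + m * w := by
      rw [Nat.cast_sub hP1]
      push_cast
      linarith
    rw [Nat.cast_mul, h3]
    exact IsCoprime.mul_right (IsCoprime.add_mul_left_right h2.neg_right _) hmph
  have hbig : 1 < (P - 1) * ph := by
    have : P - 1 ≤ (P - 1) * ph := Nat.le_mul_of_pos_right _ hphpos
    omega
  obtain ⟨n, hn⟩ := Nat.exists_mul_mod_eq_one_of_coprime hcop hbig
  obtain ⟨f, g, hfg, hfd⟩ := powers t (l * P) ((p : ℤ) ^ m) q hnorm n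
  have hmn : m * n = (P - 1) * ph * (m * n / ((P - 1) * ph)) + 1 := by
    have := Nat.div_add_mod (m * n) ((P - 1) * ph)
    omega
  refine ⟨p, P, k, f, g, t, h1, h2, ?_, ?_, ?_, ?_, ?_⟩
  · have : (P : ℤ) = c0 + k * p := hPk.symm
    rw [this]
    linear_combination hc0
  · exact_mod_cast hP.pos
  · linear_combination hfg
  · have h1 : (P : ℤ) ∣ ((p : ℤ) ^ m) ^ n - p := by
      have hpz : ((p : ℤ) : ZMod P) ≠ 0 := by
        rw [Ne, ZMod.intCast_zmod_eq_zero_iff_dvd]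
        intro h
        have h' : P ∣ p := by exact_mod_cast h
        have := Nat.le_of_dvd hp.pos h'
        omega
      rw [← ZMod.intCast_zmod_eq_zero_iff_dvd]
      have h1 := ZMod.pow_card_sub_one_eq_one hpz
      push_cast at h1 ⊢
      rw [← pow_mul, hmn, pow_succ, mul_assoc, pow_mul, h1, one_pow, one_mul, sub_self]
    have h2 : (P : ℤ) ∣ f - ((p : ℤ) ^ m) ^ n := (Dvd.intro_left l rfl).trans hfd
    have : f - p = (f - ((p : ℤ) ^ m) ^ n) + (((p : ℤ) ^ m) ^ n - p) := by ring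
    rw [this]
    exact dvd_add h2 h1
  · have h1 : l ∣ ((p : ℤ) ^ m) ^ n - p := by
      have hcopn : Nat.Coprime p l.natAbs := Int.isCoprime_iff_gcd_eq_one.1 hpl_cop
      have hE := Nat.ModEq.pow_totient hcopn
      have hE2 : p ^ (m * n) ≡ p [MOD l.natAbs] := by
        rw [hmn, pow_succ, show (P - 1) * ph * (m * n / ((P - 1) * ph))
          = ph * ((P - 1) * (m * n / ((P - 1) * ph))) by ring, pow_mul]
        have := (Nat.ModEq.pow ((P - 1) * (m * n / ((P - 1) * ph))) hE).mul_right p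
        simpa using this
      have hE3 : ((l.natAbs : ℕ) : ℤ) ∣ (p : ℤ) - ((p ^ (m * n) : ℕ) : ℤ) :=
        (Nat.modEq_iff_dvd).1 hE2
      rw [Int.natAbs_dvd] at hE3
      rw [← pow_mul, ← dvd_neg, neg_sub]
      push_cast at hE3
      exact hE3
    have h2 : l ∣ f - ((p : ℤ) ^ m) ^ n := (Dvd.intro _ rfl).trans hfd
    have : f - p = (f - ((p : ℤ) ^ m) ^ n) + (((p : ℤ) ^ m) ^ n - p) := by ring
    rw [this]
    exact dvd_add h2 h1

end Pool.Agent.MP_efa98f_al.H92
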