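import Mathlib

set_option autoImplicit false

namespace Pool.Agent.MP_efa98f_al.H92

/-- A prime in two prescribed residue classes. -/
lemma primeCRT (n A B : ℕ) (hA : A ≠ 0) (hB : B ≠ 0) (hAB : IsCoprime (A : ℤ) (B : ℤ)) (a b : ℤ)
    (ha : IsCoprime a (A : ℤ)) (hb : IsCoprime b (B : ℤ)) :
    ∃ q : ℕ, n < q ∧ q.Prime ∧ (A : ℤ) ∣ (q : ℤ) - a ∧ (B : ℤ) ∣ (q : ℤ) - b := by
  obtain ⟨u, v, huv⟩ := hAB
  set x : ℤ := a * (v * B) + b * (u * A) with hx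
  have hxa : x = a + A * (u * (b - a)) := by
    rw [hx, show v * (B : ℤ) = 1 - u * A from by linarith]; ring
  have hxb : x = b + B * (v * (a - b)) := by
    rw [hx, show u * (A : ℤ) = 1 - v * B from by linarith]; ring
  have h1 : IsCoprime x (A : ℤ) := by
    rw [hxa]; exact IsCoprime.add_mul_left_left ha _
  have h2 : IsCoprime x (B : ℤ) := by
    rw [hxb]; exact IsCoprime.add_mul_left_left hb _
  have h3 : IsCoprime x ((A * B : ℕ) : ℤ) := by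
    rw [Nat.cast_mul]; exact IsCoprime.mul_right h1 h2
  obtain ⟨q, hq, hqp, hqx⟩ := Nat.forall_exists_prime_gt_and_zmodEq n (Nat.mul_ne_zero hA hB) h3
  have h4 : ((A * B : ℕ) : ℤ) ∣ (q : ℤ) - x := (Int.ModEq.dvd hqx.symm)
  refine ⟨q, hq, hqp, ?_, ?_⟩
  · have h5 : (A : ℤ) ∣ (q : ℤ) - x := (Dvd.intro _ (Nat.cast_mul A B).symm).trans h4
    have h6 : (q : ℤ) - a = ((q : ℤ) - x) + A * (u * (b - a)) := by rw [hxa]; ring
    rw [h6]; exact dvd_add h5 (Dvd.intro _ rfl)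
  · have h5 : (B : ℤ) ∣ (q : ℤ) - x := (Dvd.intro_left _ (Nat.cast_mul A B).symm).trans h4
    have h6 : (q : ℤ) - b = ((q : ℤ) - x) + B * (v * (a - b)) := by rw [hxb]; ring
    rw [h6]; exact dvd_add h5 (Dvd.intro _ rfl)

/-- Powers of a norm one element. -/
lemma powers (t P f1 g1 : ℤ) (h : f1 ^ 2 + t * f1 * g1 + P * g1 ^ 2 = 1) (n : ℕ) :
    ∃ f g : ℤ, f ^ 2 + t * f * g + P * g ^ 2 = 1 ∧ P ∣ f - f1 ^ n := by
  induction n with
  | zero => exact ⟨1, 0, by ring, by simp⟩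
  | succ n ih =>
    obtain ⟨f, g, hfg, hd⟩ := ih
    refine ⟨f1 * f - P * g1 * g, f1 * g + g1 * f + t * g1 * g, ?_, ?_⟩
    · have : (f1 * f - P * g1 * g) ^ 2 + t * (f1 * f - P * g1 * g) * (f1 * g + g1 * f + t * g1 * g)
        + P * (f1 * g + g1 * f + t * g1 * g) ^ 2
        = (f1 ^ 2 + t * f1 * g1 + P * g1 ^ 2) * (f ^ 2 + t * f * g + P * g ^ 2) := by ring
      rw [this, h, hfg]; norm_num
    · have : f1 * f - P * g1 * g - f1 ^ (n + 1) = f1 * (f - f1 ^ n) - P * (g1 * g) := by ring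
      rw [this]
      exact dvd_sub (Dvd.dvd.mul_left hd _) (Dvd.intro _ rfl)

theorem part3 (p : ℕ) (hp : p.Prime) (hp2 : p ≠ 2) (c0 : ℤ) (hc : IsSquare ((c0 : ℤ) : ZMod p))
    (hc0 : ¬ (p : ℤ) ∣ c0) : ∃ k t f g : ℤ, 0 < c0 + k * p ∧
      f ^ 2 + t * f * g + (c0 + k * p) * g ^ 2 = 1 ∧ (c0 + k * p) ∣ f - p := by
  have : Fact p.Prime := ⟨hp⟩
  have hc0' : (c0 : ZMod p) ≠ 0 := by
    rwa [Ne, ZMod.intCast_zmod_eq_zero_iff_dvd]
  -- z
  obtain ⟨z, hz, hz1⟩ : ∃ z : ZMod p, z ^ 2 * (c0 : ZMod p) = 1 ∧ z ≠ 1 := by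
    obtain ⟨s, hs⟩ := hc
    have hs0 : s ≠ 0 := by
      rintro rfl
      exact hc0' (by simpa using hs)
    by_cases h : s⁻¹ = 1
    · refine ⟨-1, ?_, ?_⟩
      · have : s = 1 := by rw [← inv_inv s, h, inv_one]
        rw [hs, this]; ring
      · intro h2
        have h3 : (2 : ZMod p) = 0 := by linear_combination -h2
        have h4 : ((2 : ℕ) : ZMod p) = 0 := by exact_mod_cast h3
        rw [ZMod.natCast_eq_zero_iff] at h4
        exact hp2 ((Nat.prime_dvd_prime_iff_eq hp Nat.prime_two).1 h4)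
    · refine ⟨s⁻¹, ?_, h⟩
      rw [hs]; field_simp
  have hz0 : z ≠ 0 := by
    rintro rfl
    simp at hz
  have hcopz : IsCoprime ((z.val : ℕ) : ℤ) (p : ℤ) := by
    rw [Nat.isCoprime_iff_coprime, Nat.coprime_comm, hp.coprime_iff_not_dvd]
    intro h
    apply hz0
    rw [← ZMod.natCast_zmod_val z]
    exact (ZMod.natCast_eq_zero_iff _ _).2 h
  have hp4 : IsCoprime (p : ℤ) ((4 : ℕ) : ℤ) := by
    rw [Nat.isCoprime_iff_coprime]
    have h2 : Nat.Coprime p 2 := (Nat.coprime_primes hp Nat.prime_two).2 hp2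
    exact Nat.Coprime.pow_right 2 h2
  -- q
  obtain ⟨q, hqn, hq, hqz, hq3⟩ := primeCRT (p + 3) p 4 hp.ne_zero (by norm_num) hp4
    (z.val : ℕ) 3 hcopz (by norm_num : IsCoprime (3 : ℤ) ((4 : ℕ) : ℤ))
  have hqz' : (q : ZMod p) = z := by
    have h1 : (((q : ℤ) - (z.val : ℕ) : ℤ) : ZMod p) = 0 :=
      (ZMod.intCast_zmod_eq_zero_iff_dvd _ _).2 hqz
    push_cast at h1
    rw [ZMod.natCast_zmod_val] at h1
    exact sub_eq_zero.1 h1
  have hq3' : q % 4 = 3 := by omega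
  obtain ⟨m, hm⟩ : ∃ m, q = 2 * m + 1 := ⟨(q - 1) / 2, by omega⟩
  have hmodd : m % 2 = 1 := by omega
  have hmpos : 0 < m := by omega
  have hmp : Nat.Coprime p m := by
    rw [hp.coprime_iff_not_dvd]
    intro h
    apply hz1
    rw [← hqz', hm]
    have : ((m : ℕ) : ZMod p) = 0 := (ZMod.natCast_eq_zero_iff _ _).2 h
    push_cast
    rw [this]; ring
  have hpq : Nat.Coprime p q := (Nat.coprime_primes hp hq).2 (by omega)
  -- P
  have hpm_q : IsCoprime ((p ^ m : ℕ) : ℤ) ((q ^ 2 : ℕ) : ℤ) := by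
    rw [Nat.isCoprime_iff_coprime]
    exact Nat.Coprime.pow _ _ hpq
  obtain ⟨u, v, huv⟩ := hpm_q
  have hvcop : IsCoprime v ((p ^ m : ℕ) : ℤ) := ⟨((q ^ 2 : ℕ) : ℤ), u, by linarith⟩
  have hpm_m : IsCoprime ((p ^ m : ℕ) : ℤ) (m : ℤ) := by
    rw [Nat.isCoprime_iff_coprime]
    exact Nat.Coprime.pow_left _ hmp
  obtain ⟨P, hPn, hP, hPv, hPm⟩ := primeCRT p (p ^ m) m (pow_ne_zero _ hp.ne_zero) (by omega) hpm_m
    v (-1) hvcop (by exact ⟨-1, 0, by ring⟩)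
  -- p ^ m divides 1 - P q ^ 2
  have hd1 : ((p ^ m : ℕ) : ℤ) ∣ 1 - (P : ℤ) * q ^ 2 := by
    have : 1 - (P : ℤ) * q ^ 2 = ((p ^ m : ℕ) : ℤ) * u - ((P : ℤ) - v) * q ^ 2 := by
      have h : u * ((p ^ m : ℕ) : ℤ) + v * ((q ^ 2 : ℕ) : ℤ) = 1 := huv
      push_cast at h ⊢
      linear_combination -h
    rw [this]
    exact dvd_sub (Dvd.intro _ rfl) (Dvd.dvd.mul_right hPv _)
  have hdp : (p : ℤ) ∣ (P : ℤ) - c0 := by
    rw [← ZMod.intCast_zmod_eq_zero_iff_dvd]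
    have h1 : (p : ℤ) ∣ 1 - (P : ℤ) * q ^ 2 :=
      dvd_trans (by exact_mod_cast dvd_pow_self p (by omega : m ≠ 0)) hd1
    have h2 : ((1 - (P : ℤ) * q ^ 2 : ℤ) : ZMod p) = 0 :=
      (ZMod.intCast_zmod_eq_zero_iff_dvd _ _).2 h1
    push_cast at h2 ⊢
    rw [hqz'] at h2
    have h3 : z ^ 2 * ((P : ZMod p) - (c0 : ZMod p)) = 0 := by
      linear_combination -h2 - hz
    rcases mul_eq_zero.1 h3 with h4 | h4
    · exact absurd (pow_eq_zero_iff (two_ne_zero)|>.1 h4) hz0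
    · exact h4
  obtain ⟨k, hk⟩ := hdp
  have hPk : c0 + k * p = (P : ℤ) := by linarith
  -- q divides 1 - p ^ (2 m)
  have hd2 : (q : ℤ) ∣ 1 - ((p : ℤ) ^ m) ^ 2 := by
    have : Fact q.Prime := ⟨hq⟩
    have hpz : ((p : ℤ) : ZMod q) ≠ 0 := by
      rw [Ne, ZMod.intCast_zmod_eq_zero_iff_dvd]
      intro h
      have h' : q ∣ p := by exact_mod_cast h
      have := Nat.le_of_dvd hp.pos h'
      omega
    rw [← ZMod.intCast_zmod_eq_zero_iff_dvd]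
    have h1 := ZMod.pow_card_sub_one_eq_one hpz
    have h2 : q - 1 = m * 2 := by omega
    rw [h2, pow_mul] at h1
    push_cast at h1 ⊢
    rw [h1]; ring
  have hd : (((p ^ m : ℕ) : ℤ) * q) ∣ 1 - ((p : ℤ) ^ m) ^ 2 - P * q ^ 2 := by
    apply IsCoprime.mul_dvd
    · rw [Nat.isCoprime_iff_coprime]
      exact Nat.Coprime.pow_left _ hpq
    · have : 1 - ((p : ℤ) ^ m) ^ 2 - P * q ^ 2 = (1 - P * q ^ 2) - ((p ^ m : ℕ) : ℤ) * (p : ℤ) ^ m := by
        push_cast; ring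
      rw [this]
      exact dvd_sub hd1 (Dvd.intro _ rfl)
    · have : 1 - ((p : ℤ) ^ m) ^ 2 - P * q ^ 2 = (1 - ((p : ℤ) ^ m) ^ 2) - q * (P * q) := by ring
      rw [this]
      exact dvd_sub hd2 (Dvd.intro _ rfl)
  obtain ⟨t, ht⟩ := hd
  have hnorm : ((p : ℤ) ^ m) ^ 2 + t * (p : ℤ) ^ m * q + P * (q : ℤ) ^ 2 = 1 := by
    push_cast at ht
    linear_combination -ht
  -- exponent
  have hcop : Nat.Coprime m (P - 1) := by
    have hP1 : 1 ≤ P := hP.one_lt.le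
    rw [← Nat.isCoprime_iff_coprime]
    obtain ⟨w, hw⟩ := hPm
    have h2 : IsCoprime (m : ℤ) 2 := ⟨1, -((m / 2 : ℕ) : ℤ), by
      have : (m : ℤ) = 2 * ((m / 2 : ℕ) : ℤ) + 1 := by exact_mod_cast (by omega : m = 2 * (m / 2) + 1)
      linarith⟩
    have h3 : ((P - 1 : ℕ) : ℤ) = -2 + m * w := by
      rw [Nat.cast_sub hP1]
      push_cast
      linarith
    rw [h3]
    exact IsCoprime.add_mul_left_right h2.neg_right _
  have hp3 : 3 ≤ p := by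
    have := hp.two_le
    omega
  obtain ⟨n, hn⟩ := Nat.exists_mul_mod_eq_one_of_coprime hcop (by omega : 1 < P - 1)
  obtain ⟨f, g, hfg, hfd⟩ := powers t P ((p : ℤ) ^ m) q hnorm n
  refine ⟨k, t, f, g, ?_, ?_, ?_⟩
  · rw [hPk]; exact_mod_cast hP.pos
  · rw [hPk]; exact hfg
  · rw [hPk]
    have h1 : (P : ℤ) ∣ ((p : ℤ) ^ m) ^ n - p := by
      have : Fact P.Prime := ⟨hP⟩
      have hpz : ((p : ℤ) : ZMod P) ≠ 0 := by
        rw [Ne, ZMod.intCast_zmod_eq_zero_iff_dvd]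
        intro h
        have h' : P ∣ p := by exact_mod_cast h
        have := Nat.le_of_dvd hp.pos h'
        omega
      rw [← ZMod.intCast_zmod_eq_zero_iff_dvd]
      have h1 := ZMod.pow_card_sub_one_eq_one hpz
      have h2 : m * n = (P - 1) * (m * n / (P - 1)) + 1 := by
        have := Nat.div_add_mod (m * n) (P - 1)
        omega
      push_cast at h1 ⊢
      rw [← pow_mul, h2, pow_succ, pow_mul, h1, one_pow, one_mul, sub_self]
    have : f - p = (f - ((p : ℤ) ^ m) ^ n) + (((p : ℤ) ^ m) ^ n - p) := by ring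
    rw [this]
    exact dvd_add hfd h1

end Pool.Agent.MP_efa98f_al.H92
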